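import Mathlib

set_option autoImplicit false

open Finset

namespace Pool.Agent.MB59

/-- a path takes at most one more value than it has changes -/
theorem card_path (f : ℕ → ℤ) (A : ℕ) :
    ((range (A + 1)).image f).card ≤ 1 + ((range A).filter (fun a => f a ≠ f (a + 1))).card := by
  induction A with
  | zero => simp
  | succ A ih =>
    rw [Finset.range_add_one, Finset.image_insert]
    by_cases h : f A = f (A + 1)
    · have h1 : f (A + 1) ∈ (range (A + 1)).image f :=
        mem_image.2 ⟨A, mem_range.2 (Nat.lt_succ_self A), h⟩
      rw [Finset.insert_eq_of_mem h1]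
      refine ih.trans (Nat.add_le_add_left (card_le_card ?_) 1)
      exact filter_subset_filter _ (range_subset_range.2 (Nat.le_succ A))
    · refine (card_insert_le _ _).trans ?_
      have h2 : ((range (A + 1)).filter (fun a => f a ≠ f (a + 1))).card =
          ((range A).filter (fun a => f a ≠ f (a + 1))).card + 1 := by
        rw [Finset.range_add_one, filter_insert, if_pos h, card_insert_of_notMem]
        rw [mem_filter, mem_range]
        exact fun h3 => absurd h3.1 (lt_irrefl A)
      rw [h2]
      omega

/-- the values of `g` on `S`, each `s` tied to the vertex `s.1` of a path -/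
theorem card_tree (f : ℕ → ℤ) (A : ℕ) (S : Finset (ℕ × ℤ)) (g : ℕ × ℤ → ℤ)
    (hS : ∀ s ∈ S, s.1 ≤ A) :
    (S.image g).card ≤ 1 + ((range A).filter (fun a => f a ≠ f (a + 1))).card +
      (S.filter (fun s => g s ≠ f s.1)).card := by
  have h1 : S.image g ⊆ (range (A + 1)).image f ∪ (S.filter (fun s => g s ≠ f s.1)).image g := by
    intro v hv
    obtain ⟨s, hs, rfl⟩ := mem_image.1 hv
    by_cases h : g s = f s.1
    · exact mem_union_left _ (mem_image.2 ⟨s.1, mem_range.2 (Nat.lt_succ_of_le (hS s hs)), h.symm⟩)
    · exact mem_union_right _ (mem_image.2 ⟨s, mem_filter.2 ⟨hs, h⟩, rfl⟩)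
  refine (card_le_card h1).trans ((card_union_le _ _).trans ?_)
  exact Nat.add_le_add (card_path f A) card_image_le

end Pool.Agent.MB59
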